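import Pool.Agent.Q78.TF.Main

set_option autoImplicit false

/-!
# No self-similar zero contact angle extinction profile (MP_98503b_an, Q1)

The boundary value problem
`(g g''')' = 2 g - √g - (3/4) z g'` on `(0, z0)`, `g'(0) = g'''(0) = 0`,
`g, g', g g''' → 0` at `z0`, has no nonnegative classical solution except `g = 0`.
-/

namespace Pool.Agent.Results.MP_98503b_an.NoExtinctionProfile

open Set Filter Topology

/-- `D z0 g j z` is the `j`-th derivative of `g` on `[0, z0)` (one-sided at `z = 0`). -/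
noncomputable def D (z0 : ℝ) (g : ℝ → ℝ) (j : ℕ) (z : ℝ) : ℝ :=
  iteratedDerivWithin j g (Ico 0 z0) z

/-- `g` is a nonnegative classical solution on `[0, z0]` of the zero contact angle
extinction problem (the trivial solution is not excluded here). -/
structure IsSolution (z0 : ℝ) (g : ℝ → ℝ) : Prop where
  nonneg : ∀ z ∈ Icc 0 z0, 0 ≤ g z
  continuous : ContinuousOn g (Icc 0 z0)
  smooth : ContDiffOn ℝ 3 g (Ico 0 z0)
  flux_smooth : ContDiffOn ℝ 1 (fun z => g z * D z0 g 3 z) (Ioo 0 z0)
  ode : ∀ z ∈ Ioo 0 z0, deriv (fun y => g y * D z0 g 3 y) z =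
    2 * g z - √(g z) - 3 / 4 * z * D z0 g 1 z
  left_one : D z0 g 1 0 = 0
  left_three : D z0 g 3 0 = 0
  right_zero : g z0 = 0
  right_one : Tendsto (D z0 g 1) (𝓝[<] z0) (𝓝 0)
  right_flux : Tendsto (fun z => g z * D z0 g 3 z) (𝓝[<] z0) (𝓝 0)

/-- For every `z0 > 0` the only nonnegative classical solution is `g = 0`. -/
theorem result (z0 : ℝ) (hz0 : 0 < z0) (g : ℝ → ℝ) (h : IsSolution z0 g) :
    ∀ z ∈ Icc 0 z0, g z = 0 := by
  refine Q78.TF.main hz0 h.nonneg h.continuous h.smooth (fun z hz => ?_) h.left_one h.left_three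
    h.right_zero h.right_one h.right_flux
  have h1 : DifferentiableAt ℝ (fun y => g y * D z0 g 3 y) z :=
    ((h.flux_smooth.differentiableOn (by norm_num)) z hz).differentiableAt
      (Ioo_mem_nhds hz.1 hz.2)
  have h2 := h1.hasDerivAt
  rw [h.ode z hz] at h2
  exact h2

end Pool.Agent.Results.MP_98503b_an.NoExtinctionProfile
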